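import Pool.Agent.N782.GN.StmV

/-!
# The Moebius function of `ℤ[i]` in the classes modulo `q`, with frequencies (helper755)

Orthogonality of the characters of the finite ring `ℤ[i] / (q)`.
-/

set_option autoImplicit false

namespace Pool.Agent.N755.GN

open Finset
open Pool.Agent.N782.GN

/-- the ideal `(q)` -/
abbrev Iq (q : ℕ) : Ideal ZI := Ideal.span {((q : ℕ) : ZI)}

/-- the finite ring `ℤ[i] / (q)` -/
abbrev Rq (q : ℕ) : Type := ZI ⧸ Iq q

/-- the reduction -/
abbrev mk (q : ℕ) : ZI →+* Rq q := Ideal.Quotient.mk (Iq q)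

theorem mk_eq {q : ℕ} {a b : ZI} : mk q a = mk q b ↔ ((q : ℕ) : ZI) ∣ a - b := by
  rw [Ideal.Quotient.eq, Ideal.mem_span_singleton]

theorem finite_Rq {q : ℕ} (hq : 1 ≤ q) : Finite (Rq q) := by
  have hq0 : (q : ℤ) ≠ 0 := by positivity
  let f : Fin q × Fin q → Rq q := fun p => mk q ⟨((p.1 : ℕ) : ℤ), ((p.2 : ℕ) : ℤ)⟩
  apply Finite.of_surjective f
  intro x
  obtain ⟨z, rfl⟩ := Ideal.Quotient.mk_surjective x
  have h1 : 0 ≤ z.re % q := Int.emod_nonneg _ hq0
  have h2 : z.re % q < q := Int.emod_lt_of_pos _ (by positivity)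
  have h3 : 0 ≤ z.im % q := Int.emod_nonneg _ hq0
  have h4 : z.im % q < q := Int.emod_lt_of_pos _ (by positivity)
  refine ⟨(⟨(z.re % q).toNat, by omega⟩, ⟨(z.im % q).toNat, by omega⟩), ?_⟩
  change mk q _ = mk q z
  rw [mk_eq]
  refine ⟨⟨-(z.re / q), -(z.im / q)⟩, ?_⟩
  have e1 := Int.emod_add_mul_ediv z.re q
  have e2 := Int.emod_add_mul_ediv z.im q
  apply Zsqrtd.ext
  · simp only [Zsqrtd.re_sub, Zsqrtd.re_mul, Zsqrtd.re_natCast, Zsqrtd.im_natCast]
    have : (((z.re % q).toNat : ℕ) : ℤ) = z.re % q := Int.toNat_of_nonneg h1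
    rw [this]
    linarith
  · simp only [Zsqrtd.im_sub, Zsqrtd.im_mul, Zsqrtd.re_natCast, Zsqrtd.im_natCast]
    have : (((z.im % q).toNat : ℕ) : ℤ) = z.im % q := Int.toNat_of_nonneg h3
    rw [this]
    linarith

theorem unit_iff {q : ℕ} {a : ZI} : IsUnit (mk q a) ↔ IsCoprime a ((q : ℕ) : ZI) := by
  constructor
  · rintro hu
    obtain ⟨b, hb⟩ := isUnit_iff_exists_inv.1 hu
    obtain ⟨c, rfl⟩ := Ideal.Quotient.mk_surjective b
    have h1 : mk q (a * c) = mk q 1 := by
      rw [map_mul, map_one]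
      exact hb
    obtain ⟨d, hd⟩ := mk_eq.1 h1
    exact ⟨c, -d, by linear_combination hd⟩
  · rintro ⟨c, d, h⟩
    apply isUnit_iff_exists_inv.2
    refine ⟨mk q c, ?_⟩
    rw [← map_mul, ← map_one (mk q), mk_eq]
    exact ⟨-d, by linear_combination h⟩

section

variable {q : ℕ} [Finite (Rq q)]

/-- the character of `ℤ[i]` -/
noncomputable def ext (χ : MulChar (Rq q) ℂ) : ZI →* ℂ :=
  (χ.toMonoidHom).comp (mk q : ZI →* Rq q)

theorem ext_apply (χ : MulChar (Rq q) ℂ) (a : ZI) : ext χ a = χ (mk q a) := rfl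

theorem norm_unit (χ : MulChar (Rq q) ℂ) {u : Rq q} (hu : IsUnit u) : ‖χ u‖ = 1 := by
  have : Finite (Rq q)ˣ := inferInstance
  obtain ⟨v, rfl⟩ := hu
  have h1 : v ^ Nat.card (Rq q)ˣ = 1 := pow_card_eq_one'
  have h2 : χ (v : Rq q) ^ Nat.card (Rq q)ˣ = 1 := by
    rw [← map_pow, ← Units.val_pow_eq_pow_val, h1, Units.val_one, map_one]
  exact Complex.norm_eq_one_of_pow_eq_one h2 Nat.card_pos.ne'

theorem chi_ext (χ : MulChar (Rq q) ℂ) : Chi q (ext χ) where
  per a b h := by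
    rw [ext_apply, ext_apply, mk_eq.2 h]
  supp a := by
    rw [ext_apply, MulChar.apply_ne_zero_iff, unit_iff]
  nrm a h := by
    rw [ext_apply]
    exact norm_unit χ (unit_iff.2 h)

open Classical in
/-- orthogonality -/
theorem orth [Fintype (MulChar (Rq q) ℂ)] {r : Rq q} (hr : IsUnit r) (x : Rq q) :
    ∑ χ : MulChar (Rq q) ℂ, χ x * (starRingEnd ℂ) (χ r) =
      if x = r then (Fintype.card (MulChar (Rq q) ℂ) : ℂ) else 0 := by
  split_ifs with h
  · rw [h]
    have h1 : ∀ χ ∈ (univ : Finset (MulChar (Rq q) ℂ)), χ r * (starRingEnd ℂ) (χ r) = 1 := by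
      intro χ _
      rw [Complex.mul_conj, Complex.normSq_eq_norm_sq, norm_unit χ hr]
      simp
    rw [sum_congr rfl h1, sum_const, card_univ, nsmul_eq_mul, mul_one]
  · by_cases hx : IsUnit x
    · -- `x = r y` with `y ≠ 1`
      obtain ⟨r', hr'⟩ := isUnit_iff_exists_inv.1 hr
      have hne : x * r' ≠ 1 := by
        intro h1
        apply h
        calc x = x * (r * r') := by rw [hr', mul_one]
          _ = (x * r') * r := by ring
          _ = r := by rw [h1, one_mul]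
      obtain ⟨η, hη⟩ := MulChar.exists_apply_ne_one_of_hasEnoughRootsOfUnity (Rq q) ℂ hne
      have h2 : ∀ χ : MulChar (Rq q) ℂ, χ x * (starRingEnd ℂ) (χ r) = χ (x * r') := by
        intro χ
        have h3 : χ r * χ r' = 1 := by rw [← map_mul, hr', map_one]
        have h4 : (starRingEnd ℂ) (χ r) * χ r = 1 := by
          rw [mul_comm, Complex.mul_conj, Complex.normSq_eq_norm_sq, norm_unit χ hr]
          simp
        rw [map_mul]
        linear_combination -χ x * (starRingEnd ℂ) (χ r) * h3 + χ x * χ r' * h4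
      simp only [h2]
      have h3 : η (x * r') * ∑ χ : MulChar (Rq q) ℂ, χ (x * r') =
          ∑ χ : MulChar (Rq q) ℂ, χ (x * r') := by
        rw [mul_sum]
        refine Fintype.sum_equiv (Equiv.mulLeft η) _ _ fun χ => ?_
        rw [Equiv.coe_mulLeft, MulChar.mul_apply]
      have h4 : (η (x * r') - 1) * ∑ χ : MulChar (Rq q) ℂ, χ (x * r') = 0 := by
        rw [sub_mul, h3, one_mul, sub_self]
      exact (mul_eq_zero.1 h4).resolve_left (sub_ne_zero.2 hη)
    · refine sum_eq_zero fun χ _ => ?_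
      rw [MulChar.map_nonunit _ hx, zero_mul]

end

theorem ph_zero (t : ZI) : ph 0 0 t = 1 := by
  unfold ph
  simp

theorem pc (h1 : S_PK) (h2 : S_P0A) (h3 : S_P0B) : S_PC := by
  classical
  intro A B D
  obtain ⟨C1, hC1, H1⟩ := h1 A B D
  obtain ⟨C2, hC2, H2⟩ := h2 A B
  obtain ⟨C3, hC3, H3⟩ := h3 A B
  refine ⟨C1 + C2 + C3, by positivity, ?_⟩
  intro Y q r k hY hq hqY hr hk
  have hfin := finite_Rq hq
  have : Fintype (MulChar (Rq q) ℂ) := Fintype.ofFinite _
  have hlog : 0 < Real.log Y := Real.log_pos (by linarith)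
  have hY0 : 0 < Y := by linarith
  have hQ : 0 < Y / (Real.log Y) ^ A := by positivity
  have hru : IsUnit (mk q r) := unit_iff.2 hr
  have hn : (0 : ℝ) < (Fintype.card (MulChar (Rq q) ℂ) : ℝ) := by
    exact_mod_cast Fintype.card_pos
  have hnC : (Fintype.card (MulChar (Rq q) ℂ) : ℂ) ≠ 0 := by
    exact_mod_cast Fintype.card_ne_zero
  -- the bound for one character
  have hone : ∀ χ : MulChar (Rq q) ℂ, ‖∑ t ∈ bl Y, (mu t : ℂ) * (ext χ t * ph k 0 t)‖ ≤
      (C1 + C2 + C3) * Y / (Real.log Y) ^ A := by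
    intro χ
    by_cases hk0 : k = 0
    · have e : ∑ t ∈ bl Y, (mu t : ℂ) * (ext χ t * ph k 0 t) = ∑ t ∈ bl Y, (mu t : ℂ) * ext χ t := by
        refine sum_congr rfl fun t _ => ?_
        rw [hk0, ph_zero, mul_one]
      rw [e]
      by_cases hχ : ∃ a : ZI, IsCoprime a ((q : ℕ) : ZI) ∧ ext χ a ≠ 1
      · refine (H2 Y q (ext χ) hY hq hqY (chi_ext χ) hχ).trans ?_
        rw [mul_div_assoc, mul_div_assoc]
        exact mul_le_mul_of_nonneg_right (by linarith) hQ.le
      · push Not at hχ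
        have e2 : ∑ t ∈ bl Y, (mu t : ℂ) * ext χ t =
            ((∑ t ∈ (bl Y).filter (fun t => IsCoprime t ((q : ℕ) : ZI)), mu t : ℝ) : ℂ) := by
          rw [sum_filter]
          push_cast
          refine sum_congr rfl fun t _ => ?_
          by_cases ht : IsCoprime t ((q : ℕ) : ZI)
          · rw [hχ t ht, if_pos ht, mul_one]
          · have : ext χ t = 0 := by
              by_contra h0
              exact ht (((chi_ext χ).supp t).1 h0)
            rw [this, if_neg ht, mul_zero]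
            simp
        rw [e2, Complex.norm_real, Real.norm_eq_abs]
        refine (H3 Y q hY hq hqY).1.trans ?_
        rw [mul_div_assoc, mul_div_assoc]
        exact mul_le_mul_of_nonneg_right (by linarith) hQ.le
    · refine (H1 Y q (ext χ) k hY hq hqY (chi_ext χ) hk0 hk).trans ?_
      rw [mul_div_assoc, mul_div_assoc]
      exact mul_le_mul_of_nonneg_right (by linarith) hQ.le
  -- the class in terms of the characters
  have key : (Fintype.card (MulChar (Rq q) ℂ) : ℂ) * ∑ t ∈ cls q r Y, (mu t : ℂ) * ph k 0 t =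
      ∑ χ : MulChar (Rq q) ℂ, (starRingEnd ℂ) (χ (mk q r)) *
        ∑ t ∈ bl Y, (mu t : ℂ) * (ext χ t * ph k 0 t) := by
    simp only [mul_sum]
    rw [sum_comm]
    unfold cls
    rw [sum_filter]
    refine sum_congr rfl fun t _ => ?_
    have h4 := orth hru (mk q t)
    have h5 : ∑ χ : MulChar (Rq q) ℂ, (starRingEnd ℂ) (χ (mk q r)) *
        ((mu t : ℂ) * (ext χ t * ph k 0 t)) =
        (∑ χ : MulChar (Rq q) ℂ, χ (mk q t) * (starRingEnd ℂ) (χ (mk q r))) *
          ((mu t : ℂ) * ph k 0 t) := by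
      rw [sum_mul]
      refine sum_congr rfl fun χ _ => ?_
      rw [ext_apply]
      ring
    rw [h5, h4]
    by_cases h6 : ((q : ℕ) : ZI) ∣ t - r
    · rw [if_pos h6, if_pos (mk_eq.2 h6)]
    · rw [if_neg h6, if_neg (fun h => h6 (mk_eq.1 h)), zero_mul]
  have h4 : (Fintype.card (MulChar (Rq q) ℂ) : ℝ) * ‖∑ t ∈ cls q r Y, (mu t : ℂ) * ph k 0 t‖ ≤
      (Fintype.card (MulChar (Rq q) ℂ) : ℝ) * ((C1 + C2 + C3) * Y / (Real.log Y) ^ A) := by
    have h5 : (Fintype.card (MulChar (Rq q) ℂ) : ℝ) * ‖∑ t ∈ cls q r Y, (mu t : ℂ) * ph k 0 t‖ =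
        ‖(Fintype.card (MulChar (Rq q) ℂ) : ℂ) * ∑ t ∈ cls q r Y, (mu t : ℂ) * ph k 0 t‖ := by
      rw [norm_mul, Complex.norm_natCast]
    rw [h5, key]
    refine (norm_sum_le _ _).trans ?_
    have h6 : ∀ χ ∈ (univ : Finset (MulChar (Rq q) ℂ)), ‖(starRingEnd ℂ) (χ (mk q r)) *
        ∑ t ∈ bl Y, (mu t : ℂ) * (ext χ t * ph k 0 t)‖ ≤ (C1 + C2 + C3) * Y / (Real.log Y) ^ A := by
      intro χ _
      rw [norm_mul, Complex.norm_conj, norm_unit χ hru, one_mul]
      exact hone χ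
    refine (sum_le_sum h6).trans ?_
    rw [sum_const, card_univ, nsmul_eq_mul]
  exact le_of_mul_le_mul_left h4 hn

end Pool.Agent.N755.GN
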